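import Pool.Agent.H36.G00.Main
import Pool.Agent.H36.G00.Heat
import Pool.Agent.H36.G00.Many
import Pool.Agent.H36.NJ.Main

set_option autoImplicit false

/-! # A counterexample to the `Γ₀₀` conjecture

The principally polarized abelian sixfold attached to the Coxeter-Todd lattice, regarded as a
unimodular Hermitian lattice over the Eisenstein integers, is indecomposable, is not a Jacobian
(there is no curve in it with the properties of the Abel-Jacobi curve; moreover multiplication by a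
primitive cube root of unity is an automorphism of it), and the base locus of `Γ₀₀` contains points
different from the origin. -/

namespace Pool.Agent.Results.MP_02754e_ag.CoxeterToddCounterexample

open Pool.Agent.H36.G00

theorem result : ∃ τ : Matrix (Fin 6) (Fin 6) ℂ,
    InSiegel τ ∧ ¬ Decomposable τ ∧ ¬ JacobianCurve τ ∧
    (∃ (ω : ℂ) (φ : (Fin 6 → ℂ) ≃ₗ[ℂ] (Fin 6 → ℂ)),
      ω ^ 3 = 1 ∧ ω ≠ 1 ∧ (∀ v, φ v = ω • v) ∧ IsIso τ τ φ) ∧
    (∃ F : Fin 960 → ((Fin 6 → ℂ) ≃ₗ[ℂ] (Fin 6 → ℂ)),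
      Function.Injective F ∧ ∀ i, IsIso τ τ (F i)) ∧
    ∃ z : Fin 6 → ℂ, z ∉ lattice τ ∧ z ∈ Bs τ ∧
      (∃ (l : ℂ) (L : Matrix (Fin 6) (Fin 6) ℂ), L.IsSymm ∧ Star τ z l L) ∧
      ∀ (l : ℂ) (L : Matrix (Fin 6) (Fin 6) ℂ), L.IsSymm → Star τ z l L → L.det ≠ 0 :=
  ⟨tau0, tau0_siegel, tau0_indecomposable, not_jacobianCurve_tau0,
    ⟨om, omEquiv, om_cube, om_ne_one, fun _ => rfl, omega_iso⟩,
    many_automorphisms,
    z0, z0_not_mem, star_mem_Bs tau0 tau0_siegel z0 l0 L0 star_z0,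
    ⟨l0, L0, L0_symm, star_z0⟩, det_z0⟩

end Pool.Agent.Results.MP_02754e_ag.CoxeterToddCounterexample
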